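import Pool.Agent.H.MP_550fd0_al.C

set_option autoImplicit false

namespace Pool.Agent.Results.MP_2bb948_al.Yes

open Filter Topology

def D : Set (FreeGroup ℕ → FreeGroup ℕ → unitInterval) :=
  {ρ | (∀ a b, ρ a b = 0 ↔ a = b) ∧ (∀ a b, ρ a b = ρ b a) ∧
    (∀ a b c, (ρ a c : ℝ) ≤ ρ a b + ρ b c) ∧
    (∀ a b c, ρ (c * a) (c * b) = ρ a b) ∧ (∀ a b c, ρ (a * c) (b * c) = ρ a b)}

def IsCompletion (ρ : D) (G : Type) [Group G] [MetricSpace G] : Prop :=
  CompleteSpace G ∧ (∀ a b c : G, dist (c * a) (c * b) = dist a b) ∧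
    (∀ a b c : G, dist (a * c) (b * c) = dist a b) ∧
    ∃ φ : FreeGroup ℕ →* G, (∀ a b, dist (φ a) (φ b) = ρ.1 a b) ∧ DenseRange φ

def ExtAm (G : Type) [Group G] [TopologicalSpace G] : Prop :=
  ∀ (X : Type) [TopologicalSpace X] [CompactSpace X] [T2Space X] [Nonempty X] [MulAction G X]
    [ContinuousSMul G X], ∃ x : X, ∀ g : G, g • x = x

open H.MP_550fd0_al

theorem pm (ρ : D) : PM (fun a b => ρ.1 a b) :=
  ⟨fun g => by simp [(ρ.2.1 g g).2 rfl], fun g h => by simp only [ρ.2.2.1 g h], ρ.2.2.2.1,
    fun g h k => by simp only [ρ.2.2.2.2.1], fun g h k => by simp only [ρ.2.2.2.2.2]⟩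

theorem cont : Continuous (fun (ρ : D) a b => (ρ.1 a b : ℝ)) :=
  continuous_pi fun a => continuous_pi fun b => continuous_subtype_val.comp
    ((continuous_apply b).comp ((continuous_apply a).comp continuous_subtype_val))

open Classical in
noncomputable def mk {d : F → F → ℝ} (hd : PM d) {η : ℝ} (hη : 0 < η) : D :=
  ⟨fun a b => ⟨min (d a b + if a = b then 0 else η) 1, le_min (by
      have := hd.nonneg a b
      split_ifs <;> linarith) zero_le_one, min_le_right _ _⟩,
    fun a b => by
      by_cases e : a = b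
      · simp [e, hd.1, Subtype.ext_iff]
      · have := hd.nonneg a b
        have : 0 < min (d a b + η) 1 := lt_min (by linarith) one_pos
        simp [e, Subtype.ext_iff, this.ne'],
    fun a b => by simp only [hd.2.1 a b, eq_comm],
    fun a b c => by
      have h1 := hd.2.2.1 a b c
      have h2 := hd.nonneg a b
      have h3 := hd.nonneg b c
      have : (d a c + if a = c then 0 else η) ≤
          (d a b + if a = b then 0 else η) + (d b c + if b = c then 0 else η) := by
        split_ifs <;> first | linarith | simp_all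
      have h4 : 0 ≤ (d a b + if a = b then 0 else η) := by split_ifs <;> linarith
      have h5 : 0 ≤ (d b c + if b = c then 0 else η) := by split_ifs <;> linarith
      simp only
      generalize (d a c + if a = c then 0 else η) = x at *
      generalize (d a b + if a = b then 0 else η) = y at *
      generalize (d b c + if b = c then 0 else η) = z at *
      simp only [min_def]
      split_ifs <;> linarith,
    fun a b c => by simp [hd.2.2.2.1], fun a b c => by simp [hd.2.2.2.2]⟩

theorem dense (E : Finset F) (k : ℕ) {ε : ℝ} (hε : 0 < ε) :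
    Dense {ρ : D | Ram E k ε (fun a b => ρ.1 a b)} := by
  classical
  intro ρ
  choose p h1 h2 h3 using fun A => core (pm ρ) A E k (half_pos hε)
  have hp : ∀ m : ℕ, 0 < 1 / ((m : ℝ) + 1) := fun m => by positivity
  have ht : Tendsto (fun q : Finset (F × F) × ℕ => 1 / ((q.2 : ℝ) + 1)) (atTop ×ˢ atTop) (𝓝 0) :=
    tendsto_one_div_add_atTop_nhds_zero_nat.comp tendsto_snd
  refine mem_closure_of_tendsto (f := fun q : Finset (F × F) × ℕ => mk (h1 q.1) (hp q.2))
    (b := atTop ×ˢ atTop) ?_ ?_
  · rw [tendsto_subtype_rng, tendsto_pi_nhds]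
    intro a
    rw [tendsto_pi_nhds]
    intro b
    rw [tendsto_subtype_rng]
    have : Tendsto (fun q : Finset (F × F) × ℕ =>
        min ((ρ.1 a b : ℝ) + if a = b then 0 else 1 / ((q.2 : ℝ) + 1)) 1) (atTop ×ˢ atTop)
        (𝓝 (ρ.1 a b)) := by
      have e : (ρ.1 a b : ℝ) = min ((ρ.1 a b : ℝ) + 0) 1 := by simp [(ρ.1 a b).2.2]
      conv_rhs => rw [e]
      refine Tendsto.min (Tendsto.const_add _ ?_) tendsto_const_nhds
      split_ifs
      exacts [tendsto_const_nhds, ht]
    refine this.congr' ?_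
    filter_upwards [tendsto_fst.eventually (eventually_ge_atTop {(a, b)})] with q hq
    have := h3 q.1 (a, b) (hq (by simp))
    simp only at this
    simp only [mk, this]
  · filter_upwards [ht.eventually (gt_mem_nhds (half_pos hε))] with q hq c
    obtain ⟨i, x, hx⟩ := h2 q.1 c
    refine ⟨i, x, fun g hg => ?_⟩
    obtain ⟨y, hy, hlt⟩ := hx g hg
    refine ⟨y, hy, (min_le_left _ _).trans_lt ?_⟩
    split_ifs <;> linarith

theorem baire : BaireSpace D := by
  refine IsGδ.baireSpace_of_t2Space_locallyCompactSpace ?_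
  simp only [D, Set.setOf_and, Set.setOf_forall]
  refine IsGδ.inter (IsGδ.iInter fun a => IsGδ.iInter fun b => ?_) (IsClosed.isGδ
    (IsClosed.inter ?_ (IsClosed.inter ?_ (IsClosed.inter ?_ ?_))))
  · by_cases e : a = b
    · simp only [e, iff_true]
      exact (isClosed_eq (by fun_prop) (by fun_prop)).isGδ
    · simp only [e, iff_false]
      exact (isOpen_ne_fun (by fun_prop) (by fun_prop)).isGδ
  · exact isClosed_iInter fun _ => isClosed_iInter fun _ => isClosed_eq (by fun_prop) (by fun_prop)
  · exact isClosed_iInter fun _ => isClosed_iInter fun _ => isClosed_iInter fun _ =>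
      isClosed_le (by fun_prop) (by fun_prop)
  · exact isClosed_iInter fun _ => isClosed_iInter fun _ => isClosed_iInter fun _ =>
      isClosed_eq (by fun_prop) (by fun_prop)
  · exact isClosed_iInter fun _ => isClosed_iInter fun _ => isClosed_iInter fun _ =>
      isClosed_eq (by fun_prop) (by fun_prop)

theorem result :
    (∀ᶠ ρ : D in residual D, ∀ (G : Type) [Group G] [MetricSpace G],
      IsCompletion ρ G → ExtAm G) ∧
    ∀ (G : Type) [Group G] [MetricSpace G], (∀ᶠ ρ : D in residual D, IsCompletion ρ G) →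
      ExtAm G := by
  have h1 : ∀ᶠ ρ : D in residual D, ∀ (G : Type) [Group G] [MetricSpace G],
      IsCompletion ρ G → ExtAm G := by
    have : ∀ᶠ ρ : D in residual D, ∀ q : Finset F × ℕ × ℕ,
        Ram q.1 q.2.1 (1 / ((q.2.2 : ℝ) + 1)) (fun a b => ρ.1 a b) :=
      eventually_countable_forall.2 fun q => residual_of_dense_open
        ((ram_open _ _ _).preimage cont) (dense _ _ (by positivity))
    filter_upwards [this] with ρ hρ G _ _ ⟨_, _, _, φ, hφ, hden⟩ X _ _ _ _ _ _
    let _ : MulAction F X := MulAction.compHom X φ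
    have hs : ∀ (g : F) (x : X), g • x = φ g • x := fun _ _ => rfl
    obtain ⟨x, hx⟩ := ea_of_ram (pm ρ) (fun E k m => hρ (E, k, m)) X (by
      intro g x U hU hg
      have := (continuous_smul.tendsto (φ g, x)) (hU.mem_nhds hg)
      rw [nhds_prod_eq] at this
      obtain ⟨t1, h1, t2, h2, h3⟩ := mem_prod_iff.1 this
      obtain ⟨e, he, hb⟩ := Metric.mem_nhds_iff.1 h1
      obtain ⟨V, hV, o, m⟩ := mem_nhds_iff.1 h2
      refine ⟨e, he, V, o, m, fun a ha y hy => h3 (a := (φ a, y)) ⟨hb ?_, hV hy⟩⟩
      rw [Metric.mem_ball', hφ]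
      exact ha)
    exact ⟨x, fun g => hden.induction_on g (isClosed_eq (by fun_prop) (by fun_prop)) hx⟩
  refine ⟨h1, fun G _ _ h2 => ?_⟩
  have := baire
  have : Nonempty D := ⟨mk (d := fun _ _ => 0) (by simp [PM]) one_pos⟩
  obtain ⟨ρ, a, b⟩ := (dense_of_mem_residual (h1.and h2)).nonempty
  exact a G b

end Pool.Agent.Results.MP_2bb948_al.Yes
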